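import Pool.Agent.N929.EG.Two2

/-!
Self-avoiding walks on the honeycomb lattice: regularity to all orders, in the number of steps, of
the numbers of walks and of all the moments of the end-to-end distance.
-/

set_option autoImplicit false

namespace Pool.Agent.Results.MP_b440f6_pr.AllOrders

open Filter Topology

/-- Adjacency in the honeycomb lattice (brick-wall model), as in the frozen statement. -/
def Nbr (p q : ℤ × ℤ) : Prop :=
  (p.2 = q.2 ∧ (p.1 - q.1 = 1 ∨ q.1 - p.1 = 1)) ∨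
    (p.1 = q.1 ∧ ((q.2 = p.2 + 1 ∧ Even (p.1 + p.2)) ∨ (p.2 = q.2 + 1 ∧ Even (q.1 + q.2))))

/-- The set of `n`-step self-avoiding walks from the origin. -/
def walks (n : ℕ) : Set (Fin (n + 1) → ℤ × ℤ) :=
  {ω | ω 0 = (0, 0) ∧ Function.Injective ω ∧ ∀ i : Fin n, Nbr (ω i.castSucc) (ω i.succ)}

/-- The number of `n`-step self-avoiding walks from the origin. -/
noncomputable def c (n : ℕ) : ℕ := (walks n).ncard

/-- The connective constant. -/
noncomputable def μ : ℝ := √(2 + √2)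

/-- The vertex of the regular honeycomb lattice with edge length `1` in the plane, the origin at `0`,
which has the brick-wall coordinates `p`. -/
noncomputable def pos (p : ℤ × ℤ) : ℂ :=
  ⟨√3 / 2 * p.1, (3 * p.2 - ((p.1 + p.2) % 2 : ℤ)) / 2⟩

/-- The moment of order `p` of the end-to-end distance of the `n`-step self-avoiding walk; `p = 2`
gives the mean-square displacement. -/
noncomputable def moment (p : ℝ) (n : ℕ) : ℝ :=
  (∑ᶠ ω ∈ walks n, ‖pos (ω (Fin.last n))‖ ^ p) / (c n : ℝ)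

theorem nbr_eq : Nbr = TH966.AK.Hex.A := by
  funext p q
  refine propext ?_
  rw [TH966.AK.Hex.A_iff]
  unfold Nbr
  rw [Int.even_iff, Int.even_iff]
  omega

theorem walks_eq (n : ℕ) : walks n = TH966.AK.wks TH966.AK.Hex.A n := by
  unfold walks TH966.AK.wks
  rw [nbr_eq]
  rfl

theorem c_eq (n : ℕ) : c n = (TH966.AK.Kw TH966.AK.Hex.A n).card := by
  unfold c
  rw [walks_eq, TH966.AK.card_wks TH966.AK.Hex.rule]

theorem moment_eq (p : ℝ) (n : ℕ) : moment p n =
    TH966.AK.WF TH966.AK.Hex.A (fun x => ‖pos x‖ ^ p) n /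
      ((TH966.AK.Kw TH966.AK.Hex.A n).card : ℝ) := by
  unfold moment
  rw [c_eq, walks_eq, TH966.AK.sum_wks TH966.AK.Hex.rule (fun x => ‖pos x‖ ^ p) n]

theorem sq_pos (p : ℤ × ℤ) : ‖pos p‖ ^ 2 = (TH966.AK.q4 p : ℝ) / 4 := by
  rw [Complex.sq_norm]
  unfold pos TH966.AK.q4
  rw [Complex.normSq_mk]
  have h : √3 * √3 = (3 : ℝ) := Real.mul_self_sqrt (by norm_num)
  push_cast
  have e : √3 / 2 * (p.1 : ℝ) * (√3 / 2 * (p.1 : ℝ)) = √3 * √3 * (p.1 : ℝ) ^ 2 / 4 := by ring
  rw [e, h]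
  ring

theorem growth : ∃ K : ℝ, TH966.AK.Growth TH966.AK.Hex.rule μ K :=
  (TH966.AK.hex_growth (fun n => Set.ncard {f : Fin (n + 1) → ℤ × ℤ |
            f 0 = 0 ∧ Function.Injective f ∧
            ∀ i : Fin n, TH966.AK.AdjH (f i.castSucc) (f i.succ)}) (fun n => rfl)).2

/-- **Theorem.** On the honeycomb lattice let `c n` be the number of `n`-step self-avoiding walks
and `μ = √(2+√2)`. For every `r ≥ 1` there is a constant `K` such that for all `n ≥ 2` the `r`-th
difference (with step 2) of `log (c n / μ^n)` is at most `K (log n / √n)^r` in absolute value; for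
every real `p` the same holds for `log ⟨|ω(n)|^p⟩`, the logarithm of the moment of order `p` of the
end-to-end distance (`p = 2`: the mean-square displacement `D n`). -/
theorem result : ∀ r : ℕ, 1 ≤ r →
    (∃ K : ℝ, ∀ n : ℕ, 2 ≤ n →
      |∑ i ∈ Finset.range (r + 1), (-1 : ℝ) ^ i * (r.choose i : ℝ) *
        Real.log ((c (n + 2 * i) : ℝ) / μ ^ (n + 2 * i))| ≤
        K * (Real.log n / Real.sqrt n) ^ r) ∧
    ∀ p : ℝ, ∃ K : ℝ, ∀ n : ℕ, 2 ≤ n → 0 < moment p n ∧
      |∑ i ∈ Finset.range (r + 1), (-1 : ℝ) ^ i * (r.choose i : ℝ) *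
        Real.log (moment p (n + 2 * i))| ≤
        K * (Real.log n / Real.sqrt n) ^ r := by
  intro r hr
  obtain ⟨K, G⟩ := growth
  constructor
  · obtain ⟨C, -, h⟩ := Pool.Agent.N929.EG.planar_count G r hr
    refine ⟨C, fun n hn => ?_⟩
    simp only [c_eq]
    exact h n hn
  · intro p
    obtain ⟨hp, h⟩ := Pool.Agent.N929.EG.planar_moment G (fun x => ‖pos x‖) 4 (by norm_num)
      (by
        have h1 : ‖pos 0‖ ^ 2 = 0 := by
          rw [sq_pos]
          simp [TH966.AK.q4]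
        exact pow_eq_zero_iff (two_ne_zero) |>.1 h1)
      (fun n hn w hw => by
        have h1 : (1 : ℝ) ≤ TH966.AK.q4 (TH966.AK.lst w) := by
          exact_mod_cast TH966.AK.q4_pos (TH966.AK.lst_ne TH966.AK.Hex.rule hn hw)
        have h2 := sq_pos (TH966.AK.lst w)
        have h3 : (1 / 4 : ℝ) ^ 2 ≤ ‖pos (TH966.AK.lst w)‖ ^ 2 := by rw [h2]; linarith
        exact le_of_sq_le_sq h3 (norm_nonneg _))
      (fun n w hw => by
        obtain ⟨h1, h2⟩ := TH966.AK.lst_le TH966.AK.Hex.rule hw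
        have h3 := sq_pos (TH966.AK.lst w)
        have h4 : (TH966.AK.q4 (TH966.AK.lst w) : ℝ) ≤ (8 * ((n : ℝ) + 1)) ^ 2 := by
          have h5 : TH966.AK.q4 (TH966.AK.lst w) ≤ (8 * ((n : ℤ) + 1)) ^ 2 := by
            unfold TH966.AK.q4
            rw [abs_le] at h1 h2
            have m1 : 0 ≤ ((TH966.AK.lst w).1 + (TH966.AK.lst w).2) % 2 :=
              Int.emod_nonneg _ (by norm_num)
            have m2 : ((TH966.AK.lst w).1 + (TH966.AK.lst w).2) % 2 ≤ 1 := by omega
            generalize ((TH966.AK.lst w).1 + (TH966.AK.lst w).2) % 2 = m at m1 m2 ⊢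
            have a1 : (TH966.AK.lst w).1 ^ 2 ≤ (n : ℤ) ^ 2 := by nlinarith
            have a2 : (3 * (TH966.AK.lst w).2 - m) ^ 2 ≤ (3 * (n : ℤ) + 1) ^ 2 := by nlinarith
            nlinarith
          exact_mod_cast h5
        have h6 : ‖pos (TH966.AK.lst w)‖ ^ 2 ≤ (4 * ((n : ℝ) + 1)) ^ 2 := by
          rw [h3]
          linarith [show (8 * ((n : ℝ) + 1)) ^ 2 = 4 * (4 * ((n : ℝ) + 1)) ^ 2 by ring]
        exact le_of_sq_le_sq h6 (by positivity)) p
    obtain ⟨C, -, h'⟩ := h r hr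
    refine ⟨C, fun n hn => ⟨?_, ?_⟩⟩
    · rw [moment_eq]
      exact div_pos (hp n (by omega)) (Pool.Agent.N929.EG.kw_pos G n)
    · simp only [moment_eq]
      exact h' n hn

end Pool.Agent.Results.MP_b440f6_pr.AllOrders
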