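import Pool.Agent.N929.AC.Grid3

/-!
Self-avoiding walks on the honeycomb lattice: analytic continuation, across the circle of
convergence, of the generating functions of the numbers of walks and of the moments of the
end-to-end distance.
-/

set_option autoImplicit false

namespace Pool.Agent.Results.MP_b440f6_pr.AnalyticContinuation

/-- Adjacency in the honeycomb lattice (brick-wall model), as in the frozen statement. -/
def Nbr (p q : ℤ × ℤ) : Prop :=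
  (p.2 = q.2 ∧ (p.1 - q.1 = 1 ∨ q.1 - p.1 = 1)) ∨
    (p.1 = q.1 ∧ ((q.2 = p.2 + 1 ∧ Even (p.1 + p.2)) ∨ (p.2 = q.2 + 1 ∧ Even (q.1 + q.2))))

/-- The set of `n`-step self-avoiding walks from the origin. -/
def walks (n : ℕ) : Set (Fin (n + 1) → ℤ × ℤ) :=
  {ω | ω 0 = (0, 0) ∧ Function.Injective ω ∧ ∀ i : Fin n, Nbr (ω i.castSucc) (ω i.succ)}

/-- The number of `n`-step self-avoiding walks from the origin. -/
noncomputable def c (n : ℕ) : ℕ := (walks n).ncard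

/-- The connective constant. -/
noncomputable def μ : ℝ := √(2 + √2)

/-- The vertex of the regular honeycomb lattice with edge length `1` in the plane, the origin at `0`,
which has the brick-wall coordinates `p`. -/
noncomputable def pos (p : ℤ × ℤ) : ℂ :=
  ⟨√3 / 2 * p.1, (3 * p.2 - ((p.1 + p.2) % 2 : ℤ)) / 2⟩

/-- The sum over the `n`-step self-avoiding walks of a function `g` of the end point. -/
noncomputable def endSum (g : ℤ × ℤ → ℝ) (n : ℕ) : ℝ := ∑ᶠ ω ∈ walks n, g (ω (Fin.last n))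

/-- `cos (2 arg z)` for `z ≠ 0` -/
noncomputable def cos2 (z : ℂ) : ℝ := (z ^ 2).re / ‖z‖ ^ 2

/-- The domain `|z| < (1 + δ (1 - cos (2 arg z))) / μ`: the disc of convergence enlarged at all
points of the circle of convergence except `±1/μ`. -/
def Dom (δ : ℝ) : Set ℂ := {z | μ * ‖z‖ < 1 + δ * (1 - cos2 z)}

/-- The point `(1 - δ (1 - cos (2 arg z))) / μ` of the interval of convergence. -/
noncomputable def inner (δ : ℝ) (z : ℂ) : ℝ := (1 - δ * (1 - cos2 z)) / μ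

/-- `f` is a holomorphic extension of the power series with coefficients `u n` from the disc
`|z| < 1/μ` to `Dom δ`. -/
def Extends (δ : ℝ) (u : ℕ → ℝ) (f : ℂ → ℂ) : Prop :=
  DifferentiableOn ℂ f (Dom δ) ∧ ∀ z : ℂ, μ * ‖z‖ < 1 → HasSum (fun n => (u n : ℂ) * z ^ n) (f z)

open TH966.AK Pool.Agent.N929.EG Pool.Agent.N929.AC

theorem nbr_eq : Nbr = TH966.AK.Hex.A := by
  funext p q
  refine propext ?_
  rw [TH966.AK.Hex.A_iff]
  unfold Nbr
  rw [Int.even_iff, Int.even_iff]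
  omega

theorem walks_eq (n : ℕ) : walks n = TH966.AK.wks TH966.AK.Hex.A n := by
  unfold walks TH966.AK.wks
  rw [nbr_eq]
  rfl

theorem growth : ∃ K : ℝ, TH966.AK.Growth TH966.AK.Hex.rule μ K :=
  (TH966.AK.hex_growth (fun n => Set.ncard {f : Fin (n + 1) → ℤ × ℤ |
            f 0 = 0 ∧ Function.Injective f ∧
            ∀ i : Fin n, TH966.AK.AdjH (f i.castSucc) (f i.succ)}) (fun _ => rfl)).2

theorem pos_le (x : ℤ × ℤ) : ‖pos x‖ ≤ 2 * (1 + |(x.1 : ℝ)| + |(x.2 : ℝ)|) := by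
  have h1 : ‖pos x‖ ≤ |(pos x).re| + |(pos x).im| := Complex.norm_le_abs_re_add_abs_im _
  have h2 : |(pos x).re| ≤ |(x.1 : ℝ)| := by
    show |√3 / 2 * (x.1 : ℝ)| ≤ _
    rw [abs_mul, abs_of_nonneg (by positivity)]
    have h3 : √3 ≤ 2 := by
      rw [Real.sqrt_le_left (by norm_num)]
      norm_num
    nlinarith [abs_nonneg (x.1 : ℝ)]
  have h3 : |(pos x).im| ≤ 2 * |(x.2 : ℝ)| + 1 := by
    show |(3 * (x.2 : ℝ) - ((x.1 + x.2) % 2 : ℤ)) / 2| ≤ _
    have m1 : 0 ≤ (x.1 + x.2) % 2 := Int.emod_nonneg _ (by norm_num)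
    have m2 : (x.1 + x.2) % 2 ≤ 1 := by omega
    have m1' : (0 : ℝ) ≤ (((x.1 + x.2) % 2 : ℤ) : ℝ) := by exact_mod_cast m1
    have m2' : (((x.1 + x.2) % 2 : ℤ) : ℝ) ≤ 1 := by exact_mod_cast m2
    have h4 := abs_le.1 (le_refl |(x.2 : ℝ)|)
    have h5 := abs_nonneg (x.2 : ℝ)
    rw [abs_le]
    constructor <;> linarith [h4.1, h4.2]
  have h4 := abs_nonneg (x.1 : ℝ)
  linarith

/-- **Theorem.** On the honeycomb lattice let `c n` be the number of `n`-step self-avoiding walks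
and `μ = √(2+√2)`. There is `δ > 0` such that the generating function `∑ c n z^n`, whose radius of
convergence is `1/μ`, and for every real `p ≥ 0` the generating function
`∑ (∑_ω |ω(n)|^p) z^n` of the moments of order `p` extend holomorphically to the connected open
domain `Dom δ`, which contains the open disc of convergence and all points of the circle
`|z| = 1/μ` except `z = 1/μ` and `z = -1/μ`. The same holds for all nonnegative end point functionals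
of polynomial growth, with a bound on the whole domain. -/
theorem result : ∃ δ : ℝ, 0 < δ ∧
    (IsOpen (Dom δ) ∧ IsPreconnected (Dom δ) ∧ (∀ z : ℂ, μ * ‖z‖ < 1 → z ∈ Dom δ) ∧
      ∀ z : ℂ, μ * ‖z‖ = 1 → z ≠ ((1 / μ : ℝ) : ℂ) → z ≠ ((-(1 / μ) : ℝ) : ℂ) → z ∈ Dom δ) ∧
    (∃ f : ℂ → ℂ, Extends δ (fun n => (c n : ℝ)) f) ∧
    (∀ p : ℝ, 0 ≤ p → ∃ f : ℂ → ℂ, Extends δ (endSum (fun x => ‖pos x‖ ^ p)) f) ∧
    ∀ (C₀ : ℝ) (p : ℕ), 0 ≤ C₀ → ∃ C : ℝ, 0 < C ∧ ∀ g : ℤ × ℤ → ℝ,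
      (∀ x, 0 ≤ g x ∧ g x ≤ C₀ * (1 + |(x.1 : ℝ)| + |(x.2 : ℝ)|) ^ p) →
      ∃ f : ℂ → ℂ, Extends δ (endSum g) f ∧
        ∀ z ∈ Dom δ, z ≠ 0 → cos2 z < 1 →
          Summable (fun n => endSum g n * inner δ z ^ n) ∧
          ‖f z‖ ≤ C + ∑' n, endSum g n * inner δ z ^ n := by
  obtain ⟨K, G⟩ := growth
  obtain ⟨hμ, δ, hδ, ⟨d1, d2, d3, d4⟩, ⟨f, h1, h2⟩, h⟩ :=
    planar_ac G (s := 2) rfl
  have hμ0 : 0 < μ := by linarith
  have hw : ∀ n, TH966.AK.wks TH966.AK.Hex.A n = walks n := fun n => (walks_eq n).symm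
  simp only [hw] at h2 h
  have hgen : ∀ (C₀ : ℝ) (p : ℕ), 0 ≤ C₀ → ∃ C : ℝ, 0 < C ∧ ∀ g : ℤ × ℤ → ℝ,
      (∀ x, 0 ≤ g x ∧ g x ≤ C₀ * (1 + |(x.1 : ℝ)| + |(x.2 : ℝ)|) ^ p) →
      ∃ f : ℂ → ℂ, Extends δ (endSum g) f ∧
        ∀ z ∈ Dom δ, z ≠ 0 → cos2 z < 1 →
          Summable (fun n => endSum g n * inner δ z ^ n) ∧
          ‖f z‖ ≤ C + ∑' n, endSum g n * inner δ z ^ n := by
    intro C₀ p hC₀
    obtain ⟨C, hC, h'⟩ := h C₀ p hC₀
    refine ⟨C, hC, fun g hg => ?_⟩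
    obtain ⟨f, h3, h4, h5⟩ := h' g hg
    exact ⟨f, ⟨h3, h4⟩, h5⟩
  refine ⟨δ, hδ, ⟨d1, d2, d3, fun z hz z1 z2 => ?_⟩, ⟨f, h1, fun z hz => ?_⟩,
    fun p hp => ?_, hgen⟩
  · refine d4 z hz fun h3 => ?_
    have hn : ‖z‖ = 1 / μ := by field_simp; linarith
    rw [hn] at h3
    rcases sq_eq_sq_iff_eq_or_eq_neg.1 h3 with h4 | h4
    · exact z1 h4
    · exact z2 (by rw [h4]; push_cast; rfl)
  · have h3 := h2 z hz
    show HasSum (fun n => ((c n : ℝ) : ℂ) * z ^ n) (f z)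
    push_cast
    exact h3
  · obtain ⟨C, hC, h'⟩ := hgen (2 ^ p) ⌈p⌉₊ (by positivity)
    obtain ⟨f, h3, -⟩ := h' (fun x => ‖pos x‖ ^ p) (fun x => by
      refine ⟨by positivity, ?_⟩
      have hX : 1 ≤ 1 + |(x.1 : ℝ)| + |(x.2 : ℝ)| := by
        linarith [abs_nonneg (x.1 : ℝ), abs_nonneg (x.2 : ℝ)]
      calc ‖pos x‖ ^ p ≤ (2 * (1 + |(x.1 : ℝ)| + |(x.2 : ℝ)|)) ^ p :=
            Real.rpow_le_rpow (norm_nonneg _) (pos_le x) hp
        _ = 2 ^ p * (1 + |(x.1 : ℝ)| + |(x.2 : ℝ)|) ^ p :=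
            Real.mul_rpow (by norm_num) (by linarith)
        _ ≤ 2 ^ p * (1 + |(x.1 : ℝ)| + |(x.2 : ℝ)|) ^ ((⌈p⌉₊ : ℕ) : ℝ) := by
            gcongr
            exact Nat.le_ceil p
        _ = _ := by rw [Real.rpow_natCast])
    exact ⟨f, h3⟩

end Pool.Agent.Results.MP_b440f6_pr.AnalyticContinuation
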