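import Pool.Agent.N226.SX.Form
import Pool.Agent.Results.MP_b440f6_pr.AllOrders

/-!
# Self-avoiding walks on the honeycomb lattice: asymptotic forms and expansions along sparse lengths
-/

set_option autoImplicit false

namespace Pool.Agent.Results.MP_b440f6_pr.ExpansionsFromSparseLengths

open Finset Filter Topology Pool.Agent.Results.MP_b440f6_pr.AllOrders

/-- The expansion `β log n + ∑ a_i n ^ (-θ_i)`. -/
noncomputable def expansion (q : ℕ) (β : ℝ) (a θ : Fin q → ℝ) (n : ℕ) : ℝ :=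
  β * Real.log n + ∑ i, a i * (n : ℝ) ^ (-(θ i))

/-- Let `X n` be the normalised number `c n / μ ^ n` of the `n`-step self-avoiding walks on the
honeycomb lattice, `μ = √(2+√2)`, or the moment `⟨|ω(n)|^p⟩` of any real order `p` of their
end-to-end distance (`p = 2`: the mean-square displacement). Let `ρ` be `0` or `1` (or any integer),
and let `u_j → ∞` be integers with gaps at most `u_j ^ α` for some `α < 1 / 2` (for instance
`u_j = ⌊j ^ 1.99⌋`).

(1) If `X n ~ C n ^ β` along the lengths `n = 2 u_j + ρ`, with any `C > 0` and real `β`, then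
`X n ~ C n ^ β` along all `n = 2 k + ρ`.

(2) If `log (X n) = β log n + ∑ a_i n ^ (-θ_i) + O (n ^ (-M))` along `n = 2 u_j + ρ`, a finite
expansion with any real exponents `θ_i ≥ 0` and `M ≥ 0`, then for every `s ≥ 0` and `b < 1 / 2` the
`s`-th difference (with step two) of `log (X n) - β log n - ∑ a_i n ^ (-θ_i)` is
`O (n ^ (-M - b s))`, along all `n = 2 k + ρ`. For `s = 0` the expansion holds for all these `n` with
the same error term. -/
theorem result : ∀ X : ℕ → ℝ, (X = (fun n => (c n : ℝ) / μ ^ n) ∨ ∃ p : ℝ, X = moment p) →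
    ∀ (ρ : ℕ) (α : ℝ), 0 ≤ α → α < 1 / 2 → ∀ u : ℕ → ℕ, Tendsto u atTop atTop →
      (∀ᶠ j : ℕ in atTop, (u (j + 1) : ℝ) ≤ u j + (u j : ℝ) ^ α) →
      (∀ C β : ℝ, 0 < C →
        Tendsto (fun j : ℕ => X (2 * u j + ρ) / (2 * (u j : ℝ) + ρ) ^ β) atTop (𝓝 C) →
        Tendsto (fun k : ℕ => X (2 * k + ρ) / (2 * (k : ℝ) + ρ) ^ β) atTop (𝓝 C)) ∧
      ∀ (q : ℕ) (β : ℝ) (a θ : Fin q → ℝ), (∀ i, 0 ≤ θ i) → ∀ M : ℝ, 0 ≤ M →
        (∃ C : ℝ, ∀ᶠ j : ℕ in atTop,
          |Real.log (X (2 * u j + ρ)) - expansion q β a θ (2 * u j + ρ)| ≤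
            C * (u j : ℝ) ^ (-M)) →
        ∀ (s : ℕ) (b : ℝ), 0 ≤ b → b < 1 / 2 → ∃ C : ℝ, ∀ᶠ k : ℕ in atTop,
          |∑ i ∈ range (s + 1), (-1 : ℝ) ^ i * (s.choose i : ℝ) *
            (Real.log (X (2 * k + ρ + 2 * i)) - expansion q β a θ (2 * k + ρ + 2 * i))| ≤
            C * (k : ℝ) ^ (-(M + b * s)) := by
  intro X hX ρ α hα0 hα u hu hgap
  have key : (∀ᶠ n : ℕ in atTop, 0 < X n) ∧ ∀ r : ℕ, 1 ≤ r → ∃ K : ℝ, ∀ᶠ n : ℕ in atTop,
      |Pool.Agent.N226.SX.D2 r (fun n => Real.log (X n)) n| ≤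
        K * (Real.log n / Real.sqrt n) ^ r := by
    rcases hX with rfl | ⟨p, rfl⟩
    · constructor
      · obtain ⟨K, G⟩ := growth
        refine Eventually.of_forall fun n => ?_
        have h1 := Pool.Agent.N929.EG.kw_pos G n
        have h2 : (0 : ℝ) < c n := by rw [c_eq]; exact h1
        have h3 : 0 < μ := Real.sqrt_pos.mpr (by positivity)
        exact div_pos h2 (pow_pos h3 n)
      · intro r hr
        obtain ⟨K, hK⟩ := (Pool.Agent.Results.MP_b440f6_pr.AllOrders.result r hr).1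
        exact ⟨K, (eventually_ge_atTop 2).mono fun n hn => hK n hn⟩
    · constructor
      · obtain ⟨K, hK⟩ := (Pool.Agent.Results.MP_b440f6_pr.AllOrders.result 1 le_rfl).2 p
        exact (eventually_ge_atTop 2).mono fun n hn => (hK n hn).1
      · intro r hr
        obtain ⟨K, hK⟩ := (Pool.Agent.Results.MP_b440f6_pr.AllOrders.result r hr).2 p
        exact ⟨K, (eventually_ge_atTop 2).mono fun n hn => (hK n hn).2⟩
  obtain ⟨hpos, hd⟩ := key
  have hreg := Pool.Agent.N226.SX.reg_of_log (f := fun n => Real.log (X n)) ρ hd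
  refine ⟨fun C β hC hval => ?_, fun q β a θ hθ M hM hval s b hb0 hb => ?_⟩
  · exact Pool.Agent.N226.SX.form_two (by norm_num) hpos ρ hreg α hα0 hα u hu hgap β C hC hval
  · exact Pool.Agent.N226.SX.main_two (by norm_num) (f := fun n => Real.log (X n))
      (g := fun n : ℕ => Pool.Agent.N226.SX.G q β a θ n) ρ hreg
      (Pool.Agent.N226.SX.reg_G2 (1 / 2) (by norm_num) ρ q β a θ hθ) M α hM hα0 hα u hu hgap hval
      s b hb0 hb

end Pool.Agent.Results.MP_b440f6_pr.ExpansionsFromSparseLengths
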